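import Pool.Agent.Helper54.NS.Rates

/-! Choice of a typical window (ns_notes_40c sect. 3, ns_notes_39c (4.5)), on top of helper54's real analysis. -/

namespace Pool.Agent.Helper30.TYP

open MeasureTheory Set Filter Topology
open scoped ENNReal NNReal
open Pool.Agent.Helper54.NS

/-- null sets of levels pull back to null sets of windows -/
theorem ae_pull {η : ℝ → ℝ} {u v : ℝ} {Q : ℝ → Prop}
    (hsp : ∀ c ∈ Ioo u v, ∀ c' ∈ Ioo u v, c < c' → c' - c ≤ η c' - η c) (hQ : ∀ᵐ r, Q r) :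
    ∀ᵐ c, c ∈ Ioo u v → Q (η c) := by
  rw [ae_iff] at hQ ⊢
  have h1 : {c | ¬ (c ∈ Ioo u v → Q (η c))} = {c | c ∈ Ioo u v ∧ ¬ Q (η c)} := by
    ext c; simp only [Classical.not_imp, mem_ofPred_eq]
  rw [h1]
  refine le_antisymm ?_ bot_le
  refine (vol_le_image (η := η) fun c hc c' hc' hcc => hsp c hc.1 c' hc'.1 hcc).trans ?_
  rw [← hQ]
  refine measure_mono ?_
  rintro _ ⟨c, hc, rfl⟩
  exact hc.2

/-- **(R1) at almost every window, on both sides.** -/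
theorem r1_two {F : ℕ → ℝ → ℝ} {E : ℕ → ℝ} {m : ℝ} (hE : ∀ j, 0 < E j) (hs : Summable E)
    (hF : ∀ j, MonotoneOn (F j) (Icc 0 1)) (h0 : ∀ j, ∀ c ∈ Icc (0 : ℝ) 1, 0 ≤ F j c)
    (h1 : ∀ j, ∀ c ∈ Icc (0 : ℝ) 1, F j c ≤ m * E j) :
    ∀ᵐ c : ℝ, c ∈ Ioo (0 : ℝ) 1 → ∀ A : ℕ,
      Tendsto (fun j => (F j (c + A * E j) - F j (c - A * E j)) / E j) atTop (𝓝 0) := by
  have hmem : ∀ r : ℝ, max 0 (min 1 r) ∈ Icc (0 : ℝ) 1 := fun r =>
    ⟨le_max_left _ _, max_le zero_le_one (min_le_left _ _)⟩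
  have hall : ∀ᵐ c : ℝ, ∀ A : ℕ,
      Tendsto (fun j => (F j (max 0 (min 1 (c + 2 * A * E j - A * E j))) -
        F j (max 0 (min 1 (c - A * E j)))) / E j) atTop (𝓝 0) := by
    rw [ae_all_iff]
    intro A
    refine ae_incr (H := fun j r => F j (max 0 (min 1 (r - A * E j)))) (M := fun j => m * E j)
      (ω := fun j => 2 * A * E j) (e := E) (fun j r r' h => ?_) (fun j r => h0 j _ (hmem _))
      (fun j r => h1 j _ (hmem _)) (fun j => ?_) hE ?_
    · exact hF j (hmem _) (hmem _) (max_le_max le_rfl (min_le_min le_rfl (by linarith)))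
    · have := (hE j).le
      positivity
    · refine ((hs.mul_left ((2 * A : ℝ) * m))).congr fun j => ?_
      have := (hE j).ne'
      field_simp
  filter_upwards [hall] with c hc hcI A
  refine (hc A).congr' ?_
  have hE0 : Tendsto (fun j => (A : ℝ) * E j) atTop (𝓝 0) := by
    simpa using hs.tendsto_atTop_zero.const_mul (A : ℝ)
  have hev : ∀ᶠ j in atTop, (A : ℝ) * E j < 1 - c :=
    hE0.eventually (gt_mem_nhds (sub_pos.2 hcI.2))
  have hev2 : ∀ᶠ j in atTop, (A : ℝ) * E j < c := hE0.eventually (gt_mem_nhds hcI.1)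
  filter_upwards [hev, hev2] with j hj hj2
  have hAE : 0 ≤ (A : ℝ) * E j := mul_nonneg (Nat.cast_nonneg A) (hE j).le
  have e1 : max 0 (min 1 (c + 2 * A * E j - A * E j)) = c + A * E j := by
    rw [show c + 2 * A * E j - A * E j = c + A * E j by ring, min_eq_right (by linarith),
      max_eq_right (by linarith [hcI.1])]
  have e2 : max 0 (min 1 (c - A * E j)) = c - A * E j := by
    rw [min_eq_right (by linarith [hcI.2]), max_eq_right (by linarith)]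
  rw [e1, e2]

/-- linearisation at the scales `E j`, uniformly on `[-A, A]` -/
theorem incr_lin {F : ℝ → ℝ} {F' c : ℝ} (h : HasDerivAt F F' c) {E : ℕ → ℝ} (hE : ∀ j, 0 < E j)
    (hE0 : Tendsto E atTop (𝓝 0)) {A : ℝ} {ε : ℝ} (hε : 0 < ε) :
    ∀ᶠ j in atTop, ∀ s : ℝ, |s| ≤ A → |F (c + s * E j) - F c - F' * s * E j| ≤ ε * E j := by
  rcases le_or_gt A 0 with hA | hA
  · refine Eventually.of_forall fun j s hs => ?_
    have h0 : s = 0 := abs_eq_zero.1 (le_antisymm (hs.trans hA) (abs_nonneg _))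
    subst h0
    have := (hE j).le
    simp only [zero_mul, add_zero, sub_self, mul_zero, abs_zero]
    positivity
  rw [hasDerivAt_iff_isLittleO] at h
  have h1 := h.def (show 0 < ε / A by positivity)
  rw [Metric.eventually_nhds_iff] at h1
  obtain ⟨d, hd, h2⟩ := h1
  have h3 : Tendsto (fun j => A * E j) atTop (𝓝 0) := by simpa using hE0.const_mul A
  filter_upwards [h3.eventually (gt_mem_nhds hd)] with j hj s hs
  have hEj := hE j
  have h4 : |s * E j| ≤ A * E j := by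
    rw [abs_mul, abs_of_pos hEj]
    exact mul_le_mul_of_nonneg_right hs hEj.le
  have h5 := h2 (y := c + s * E j) (by
    rw [Real.dist_eq, add_sub_cancel_left]
    exact h4.trans_lt hj)
  rw [Real.norm_eq_abs, Real.norm_eq_abs, add_sub_cancel_left, smul_eq_mul] at h5
  have e : F (c + s * E j) - F c - F' * s * E j = F (c + s * E j) - F c - s * E j * F' := by ring
  rw [e]
  refine h5.trans ?_
  calc ε / A * |s * E j| ≤ ε / A * (A * E j) := mul_le_mul_of_nonneg_left h4 (by positivity)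
    _ = ε * E j := by field_simp

/-- increments between two windows, uniformly -/
theorem incr_lin2 {F : ℝ → ℝ} {F' c : ℝ} (h : HasDerivAt F F' c) {E : ℕ → ℝ} (hE : ∀ j, 0 < E j)
    (hE0 : Tendsto E atTop (𝓝 0)) {A : ℝ} {ε : ℝ} (hε : 0 < ε) :
    ∀ᶠ j in atTop, ∀ s s' : ℝ, |s| ≤ A → |s'| ≤ A →
      |F (c + s' * E j) - F (c + s * E j) - F' * (s' - s) * E j| ≤ ε * E j := by
  filter_upwards [incr_lin h hE hE0 (A := A) (half_pos hε)] with j hj s s' hs hs'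
  have a := hj s hs
  have b := hj s' hs'
  rw [abs_le] at a b ⊢
  constructor <;> nlinarith [a.1, a.2, b.1, b.2]

/-- OFFSET LEMMA: two comparable functions which touch at a point have the same derivative there -/
theorem touch {g₁ g₂ : ℝ → ℝ} {c a b : ℝ} (hle : ∀ᶠ x in 𝓝 c, g₁ x ≤ g₂ x) (he : g₁ c = g₂ c)
    (h1 : HasDerivAt g₁ a c) (h2 : HasDerivAt g₂ b c) : a = b := by
  have h3 : IsLocalMin (fun x => g₂ x - g₁ x) c := by
    filter_upwards [hle] with x hx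
    show g₂ c - g₁ c ≤ g₂ x - g₁ x
    rw [he]
    linarith
  have h4 := h3.hasDerivAt_eq_zero (h2.sub h1)
  linarith

/-- the derivative of a monotone function is not negative -/
theorem deriv_nonneg_of_mono {F : ℝ → ℝ} {u v c w : ℝ} (hF : MonotoneOn F (Ioo u v)) (hc : c ∈ Ioo u v)
    (hd : HasDerivAt F w c) : 0 ≤ w := by
  have h1 : Tendsto (slope F c) (𝓝[>] c) (𝓝 w) :=
    (hasDerivAt_iff_tendsto_slope.1 hd).mono_left (nhdsWithin_mono _ fun x hx => (ne_of_gt hx))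
  refine ge_of_tendsto h1 ?_
  filter_upwards [Ioo_mem_nhdsGT hc.2] with x hx
  rw [slope_def_field]
  exact div_nonneg (sub_nonneg.2 (hF hc ⟨hc.1.trans hx.1, hx.2⟩ hx.1.le)) (sub_nonneg.2 hx.1.le)

/-- **TYPICAL WINDOWS.** `η` expands (SPEED), is Lipschitz at `c₀` from the left (LIP); the levels at which `y` has a
derivative at most `b` have left density one at `l`. Arbitrarily near to `c₀` there is a window `c` with every almost
sure property `P` of windows, every almost sure property `Q` of levels at `η c`, a finite derivative `w ≥ 1` of `η`,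
derivatives of countably many monotone functions `F i`, a derivative at most `b` of `y` at `η c`, and negligible
increments of the countably many families `X k` at the scales `E j`, on both sides. -/
theorem typ {η y : ℝ → ℝ} {c₀ d₀ C l b : ℝ} (hd₀ : 0 < d₀) (h00 : 0 ≤ c₀ - d₀) (h01 : c₀ ≤ 1)
    (hsp : ∀ c ∈ Ioo (c₀ - d₀) c₀, ∀ c' ∈ Ioo (c₀ - d₀) c₀, c < c' → c' - c ≤ η c' - η c)
    (hlt : ∀ c ∈ Ioo (c₀ - d₀) c₀, η c < l)
    (hlip : ∀ c ∈ Ioo (c₀ - d₀) c₀, l - η c ≤ C * (c₀ - c))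
    (hden : Tendsto (fun δ : ℝ => volume (Ioo (l - δ) l \ {r | ∃ y' ≤ b, HasDerivAt y y' r}) /
      ENNReal.ofReal δ) (𝓝[>] 0) (𝓝 0))
    {ι : Type*} [Countable ι] (F : ι → ℝ → ℝ) (hF : ∀ i, MonotoneOn (F i) (Ioo (c₀ - d₀) c₀))
    {P : ℝ → Prop} (hP : ∀ᵐ c, c ∈ Ioo (c₀ - d₀) c₀ → P c) {Q : ℝ → Prop} (hQ : ∀ᵐ r, Q r)
    {κ : Type*} [Countable κ] (X : κ → ℕ → ℝ → ℝ) {E : ℕ → ℝ} (m : κ → ℝ) (hE : ∀ j, 0 < E j) (hs : Summable E)
    (hX : ∀ k j, MonotoneOn (X k j) (Icc 0 1)) (hX0 : ∀ k j, ∀ c ∈ Icc (0 : ℝ) 1, 0 ≤ X k j c)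
    (hX1 : ∀ k j, ∀ c ∈ Icc (0 : ℝ) 1, X k j c ≤ m k * E j) {δ : ℝ} (hδ : 0 < δ) :
    ∃ c ∈ Ioo (c₀ - δ) c₀, c ∈ Ioo (c₀ - d₀) c₀ ∧ P c ∧ Q (η c) ∧ (∃ w, 1 ≤ w ∧ HasDerivAt η w c) ∧
      (∀ i, ∃ w, 0 ≤ w ∧ HasDerivAt (F i) w c) ∧ (∃ y' ≤ b, HasDerivAt y y' (η c)) ∧
      ∀ k, ∀ A : ℕ, Tendsto (fun j => (X k j (c + A * E j) - X k j (c - A * E j)) / E j) atTop (𝓝 0) := by
  have h1 : ∀ᵐ c, c ∈ Ioo (c₀ - d₀) c₀ → (P c ∧ Q (η c) ∧
      ∀ k, ∀ A : ℕ, Tendsto (fun j => (X k j (c + A * E j) - X k j (c - A * E j)) / E j) atTop (𝓝 0)) := by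
    filter_upwards [hP, ae_pull hsp hQ, ae_all_iff.2 fun k => r1_two hE hs (hX k) (hX0 k) (hX1 k)]
      with c a1 a2 a3 hc
    exact ⟨a1 hc, a2 hc, fun k => a3 k ⟨by linarith [hc.1], by linarith [hc.2]⟩⟩
  obtain ⟨c, hc, hcd, ⟨p1, p2, p3⟩, p4, p5, p6⟩ := exists_corner hd₀ hsp hlt hlip hden F hF h1 hδ
  refine ⟨c, hc, hcd, p1, p2, p4, fun i => ?_, p6, p3⟩
  exact ⟨deriv (F i) c, deriv_nonneg_of_mono (hF i) hcd (p5 i).hasDerivAt, (p5 i).hasDerivAt⟩

end Pool.Agent.Helper30.TYP
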