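import Mathlib

/-! SELECTION OF A COORDINATE AND OF SCALES: if the sum of three monotone functions is at least `g r` then one of them is
at least `g' r` on arbitrarily long intervals of scales. -/

set_option autoImplicit false

namespace Pool.Agent.Helper30.TYP

open Filter Topology

/-- one of three coordinates is good with bounded gaps on arbitrarily long intervals of scales -/
theorem exists_long (P : Fin 3 → ℝ → Prop) (h : ∀ r : ℝ, 0 < r → r ≤ 1 → ∃ i, P i r) :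
    ∃ (i : Fin 3) (L : ℝ), 1 ≤ L ∧ ∀ N : ℝ, 1 ≤ N → ∀ δ : ℝ, 0 < δ → ∃ E : ℝ, 0 < E ∧ E < δ ∧ E ≤ 1 ∧
      ∀ r : ℝ, E / N ≤ r → r ≤ E → ∃ r' : ℝ, r / L ≤ r' ∧ r' ≤ r ∧ P i r' := by
  by_contra hne
  have h2 : ∀ (i : Fin 3) (L : ℝ), 1 ≤ L → ∃ N : ℝ, 1 ≤ N ∧ ∃ δ : ℝ, 0 < δ ∧ ∀ E : ℝ, 0 < E → E < δ → E ≤ 1 →
      ∃ r : ℝ, E / N ≤ r ∧ r ≤ E ∧ ∀ r' : ℝ, r / L ≤ r' → r' ≤ r → ¬ P i r' := by
    intro i L hL
    by_contra hc
    apply hne
    refine ⟨i, L, hL, fun N hN δ hδ => ?_⟩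
    by_contra hd
    apply hc
    refine ⟨N, hN, δ, hδ, fun E h0 h1 h3 => ?_⟩
    by_contra he
    apply hd
    refine ⟨E, h0, h1, h3, fun r hr hr2 => ?_⟩
    by_contra hf
    apply he
    exact ⟨r, hr, hr2, fun r' a b c => hf ⟨r', a, b, c⟩⟩
  obtain ⟨N2, hN2, d2, hd2, g2⟩ := h2 2 1 le_rfl
  obtain ⟨N1, hN1, d1, hd1, g1⟩ := h2 1 N2 hN2
  obtain ⟨N0, hN0, d0, hd0, g0⟩ := h2 0 (N1 * N2) (by nlinarith)
  obtain ⟨E, hE⟩ : ∃ E : ℝ, E = min 1 (min d0 (min d1 d2)) / 2 := ⟨_, rfl⟩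
  have m0 : 0 < min 1 (min d0 (min d1 d2)) := by positivity
  have e0 : 0 < E := by rw [hE]; positivity
  have e1 : E < min 1 (min d0 (min d1 d2)) := by rw [hE]; linarith
  have e2 : E < 1 := lt_of_lt_of_le e1 (min_le_left _ _)
  have e3 : E < d0 := lt_of_lt_of_le e1 ((min_le_right _ _).trans (min_le_left _ _))
  have e4 : E < d1 := lt_of_lt_of_le e1 ((min_le_right _ _).trans ((min_le_right _ _).trans (min_le_left _ _)))
  have e5 : E < d2 := lt_of_lt_of_le e1 ((min_le_right _ _).trans ((min_le_right _ _).trans (min_le_right _ _)))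
  have pos : ∀ {x y N : ℝ}, 0 < x → 1 ≤ N → x / N ≤ y → 0 < y := by
    intro x y N hx hN hy
    have : 0 < x / N := by positivity
    linarith
  obtain ⟨r0, a1, a2, a3⟩ := g0 E e0 e3 e2.le
  have a0 := pos e0 hN0 a1
  obtain ⟨r1, b1, b2, b3⟩ := g1 r0 a0 (by linarith) (by linarith)
  have b0 := pos a0 hN1 b1
  obtain ⟨r2, c1, c2, c3⟩ := g2 r1 b0 (by linarith) (by linarith)
  have c0 := pos b0 hN2 c1
  obtain ⟨i, hi⟩ := h r2 c0 (by linarith)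
  have k0 : r0 / (N1 * N2) ≤ r2 := by
    refine le_trans ?_ c1
    rw [← div_div]
    exact div_le_div_of_nonneg_right b1 (by linarith)
  fin_cases i
  · exact a3 r2 k0 (by linarith) hi
  · exact b3 r2 c1 c2 hi
  · exact c3 r2 (by rw [div_one]) le_rfl hi

/-- SELECTION OF A COORDINATE AND OF SCALES -/
theorem exists_scale {φ : Fin 3 → ℝ → ℝ} (hm : ∀ i, MonotoneOn (φ i) (Set.Icc 0 1))
    (h0 : ∀ i, ∀ r ∈ Set.Icc (0 : ℝ) 1, 0 ≤ φ i r) {g : ℝ} (hg : 0 < g)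
    (hs : ∀ r ∈ Set.Icc (0 : ℝ) 1, g * r ≤ φ 0 r + φ 1 r + φ 2 r) :
    ∃ (i : Fin 3) (g' : ℝ), 0 < g' ∧ ∃ E : ℕ → ℝ, (∀ j, 0 < E j ∧ E j ≤ 1) ∧ Summable E ∧
      ∀ ε : ℝ, 0 < ε → ∀ᶠ j in atTop, ∀ r : ℝ, 0 ≤ r → r ≤ 1 → (g' * r - ε) * E j ≤ φ i (r * E j) := by
  obtain ⟨i, L, hL, h⟩ := exists_long (fun i r => g / 3 * r ≤ φ i r) (by
    intro r hr hr1
    by_contra hc
    have h1 : ∀ i, φ i r < g / 3 * r := fun i => not_le.mp fun h => hc ⟨i, h⟩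
    have h2 := hs r ⟨hr.le, hr1⟩
    have := h1 0
    have := h1 1
    have := h1 2
    linarith)
  have h' : ∀ j : ℕ, ∃ E : ℝ, 0 < E ∧ E < (1 / 2) ^ j ∧ E ≤ 1 ∧
      ∀ r : ℝ, E / ((j : ℝ) + 1) ≤ r → r ≤ E → ∃ r' : ℝ, r / L ≤ r' ∧ r' ≤ r ∧ g / 3 * r' ≤ φ i r' := fun j =>
    h ((j : ℝ) + 1) (by
      have : (0 : ℝ) ≤ j := Nat.cast_nonneg j
      linarith) _ (by positivity)
  choose E e0 e1 e2 e3 using h'
  have hg' : 0 < g / (3 * L) := by positivity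
  refine ⟨i, g / (3 * L), hg', E, fun j => ⟨e0 j, e2 j⟩, ?_, ?_⟩
  · exact Summable.of_nonneg_of_le (fun j => (e0 j).le) (fun j => (e1 j).le) summable_geometric_two
  · intro ε hε
    have ht : Tendsto (fun j : ℕ => g / (3 * L) * (1 / ((j : ℝ) + 1))) atTop (𝓝 (g / (3 * L) * 0)) :=
      tendsto_one_div_add_atTop_nhds_zero_nat.const_mul _
    rw [mul_zero] at ht
    filter_upwards [ht.eventually (gt_mem_nhds hε)] with j hj r hr0 hr1
    have hE := e0 j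
    have hrE : 0 ≤ r * E j := by positivity
    have hrE1 : r * E j ≤ 1 := by
      have := e2 j
      nlinarith
    rcases lt_or_ge r (1 / ((j : ℝ) + 1)) with hr | hr
    · have h1 : g / (3 * L) * r ≤ g / (3 * L) * (1 / ((j : ℝ) + 1)) := mul_le_mul_of_nonneg_left hr.le hg'.le
      have h2 : (g / (3 * L) * r - ε) * E j ≤ 0 := mul_nonpos_of_nonpos_of_nonneg (by linarith) hE.le
      exact h2.trans (h0 i _ ⟨hrE, hrE1⟩)
    · obtain ⟨r', f1, f2, f3⟩ := e3 j (r * E j) (by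
        rw [div_eq_mul_one_div, mul_comm]
        exact mul_le_mul_of_nonneg_right hr hE.le) (by nlinarith)
      have hr' : 0 ≤ r' := le_trans (by positivity) f1
      have f4 : φ i r' ≤ φ i (r * E j) := hm i ⟨hr', f2.trans hrE1⟩ ⟨hrE, hrE1⟩ f2
      have f5 : g / (3 * L) * (r * E j) = g / 3 * (r * E j / L) := by field_simp
      have f6 : g / 3 * (r * E j / L) ≤ g / 3 * r' := mul_le_mul_of_nonneg_left f1 (by positivity)
      have f7 : 0 ≤ ε * E j := by positivity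
      nlinarith

end Pool.Agent.Helper30.TYP
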