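import Pool.Agent.Helper31.NSB.Lev
import Pool.Agent.Helper30.TYP.Scl
import Pool.Agent.Helper46.PM.Exf

/-! ROW B_SELX: a robust system has a coordinate whose velocity is rich over the point along a sequence of scales. -/

set_option autoImplicit false

namespace Pool.Agent.Helper30.TYP

open Filter Topology Pool.Agent.Helper69.RK Pool.Agent.Helper31.EC Pool.Agent.Helper31.EC.Sp
open Pool.Agent.Helper40.EL Pool.Agent.Helper42.NS Pool.Agent.Helper91.GR Pool.Agent.Helper31.NSB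
open Pool.Agent.Helper80.MX Pool.Agent.Helper46.PM

noncomputable section

variable {S : Sp}

theorem cor_mono {m : ℕ} (y : S.VV m) (i : Fin m) {r r' : ℝ} (h : r ≤ r') :
    TR.dg (TR.cor y i) r ≤ TR.dg (TR.cor y i) r' :=
  (TR.vec (fun _ : Fin 1 => TR.cor y i)).dg_mono h

theorem x_le_three (s : Sys S 3) (r : ℝ) (B : S.L) : h (s.x.dg r) B ≤
    h (TR.dg (TR.cor s.x 0) r) B + h (TR.dg (TR.cor s.x 1) r) B + h (TR.dg (TR.cor s.x 2) r) B := by
  have h1 : s.x.dg r ≤ (TR.dg (TR.cor s.x 0) r ⊔ TR.dg (TR.cor s.x 1) r) ⊔ TR.dg (TR.cor s.x 2) r := by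
    have h2 := TR.vec_dg_le (TR.cor s.x) r ((TR.dg (TR.cor s.x 0) r ⊔ TR.dg (TR.cor s.x 1) r) ⊔ TR.dg (TR.cor s.x 2) r)
      (by
        intro i
        fin_cases i
        · exact le_sup_left.trans le_sup_left
        · exact le_sup_right.trans le_sup_left
        · exact le_sup_right)
    exact h2
  refine (h_mono h1).trans ((h_sup_le _ _ _).trans ?_)
  have h3 := h_sup_le (TR.dg (TR.cor s.x 0) r) (TR.dg (TR.cor s.x 1) r) B
  linarith

/-- **ROW B_SELX**: selection of a coordinate and of scales -/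
theorem exists_rys {g : ℝ} {s : Sys S 3} (hb : Rbb g s) :
    ∃ (y : Fin 3) (E : ℕ → ℝ), (∀ j, 0 < E j ∧ E j ≤ 1) ∧ Summable E ∧ RYs s y E := by
  obtain ⟨i, g', hg', E, hE, hS, hh⟩ := exists_scale (φ := fun i r => h (TR.dg (TR.cor s.x i) r) (lB s))
    (fun i r _ r' _ hr => h_mono (cor_mono s.x i hr)) (fun i r _ => h_nonneg _ _) hb.g0
    (fun r hr => (hb.rich.base hr.1 hr.2).trans (x_le_three s r (lB s)))
  refine ⟨i, E, hE, hS, g', hg', fun ε hε => ?_⟩
  filter_upwards [hh ε hε] with j hj r h0 h1 T p A hA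
  have e0 := (hE j).1
  have e1 := (hE j).2
  have r0 : 0 ≤ r * E j := mul_nonneg h0 e0.le
  have r1 : r * E j ≤ 1 := by nlinarith
  rw [hb.rx i T p A hA (r * E j) r0 r1]
  exact hj r h0 h1

/-- rich at all small levels: rich along all scales -/
theorem rys_of_ryl {s : Sys S 3} {y : Fin 3} (hy : RYl s y) {E : ℕ → ℝ} (h0 : ∀ j, 0 < E j)
    (hE : Tendsto E atTop (𝓝 0)) : RYs s y E := by
  obtain ⟨g, u, hg, hu, hh⟩ := hy
  refine ⟨g, hg, fun ε hε => ?_⟩
  filter_upwards [hE.eventually (gt_mem_nhds hu)] with j hj r hr0 hr1 T p A hA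
  have e0 := h0 j
  have r0 : 0 ≤ r * E j := mul_nonneg hr0 e0.le
  have r1 : r * E j ≤ u := by nlinarith
  refine le_trans ?_ (hh T p A hA (r * E j) r0 r1)
  nlinarith

/-- subsequences of scales -/
theorem RYs.comp {s : Sys S 3} {y : Fin 3} {E : ℕ → ℝ} (hy : RYs s y E) {φ : ℕ → ℕ} (hφ : Tendsto φ atTop atTop) :
    RYs s y (fun j => E (φ j)) := by
  obtain ⟨g, hg, hh⟩ := hy
  exact ⟨g, hg, fun ε hε => hφ.eventually (hh ε hε)⟩

/-- permuted names -/
theorem RYs_pm (s : Sys S 3) (e : Equiv.Perm (Fin 3)) (y : Fin 3) (E : ℕ → ℝ) :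
    RYs (s.pm e) y E ↔ RYs s (e y) E := by
  unfold RYs
  simp only [pm_cor_h]

end

end Pool.Agent.Helper30.TYP
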